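import Pool.Agent.X24.Coset.M

/-!
# Extreme central values in every group of at least `q ^ (1 / 2 + ε)` characters

For every `ε > 0` and every large prime `q`: every group `H` of Dirichlet characters modulo `q` with
`#H ≥ q ^ (1 / 2 + ε)` contains a `χ ≠ 1` with
`|L(χ, 1/2)| ≥ exp ((√ε / 1400) √(log q logloglog q / loglog q))`.
-/

set_option autoImplicit false

namespace Pool.Agent.Results.MP_3e6494_nt.LargeSubgroups

/-- For every `ε > 0` and every large prime `q`, every group `H` of Dirichlet characters modulo `q` of order at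
least `q ^ (1 / 2 + ε)` contains a nontrivial `χ` with
`|L(χ, 1/2)| ≥ exp ((√ε / 1400) √(log q logloglog q / loglog q))`. -/
theorem result (ε : ℝ) (hε : 0 < ε) : ∃ q₀ : ℕ, ∀ q : ℕ, q₀ ≤ q → q.Prime →
    ∀ [NeZero q], ∀ H : Subgroup (DirichletCharacter ℂ q), (q : ℝ) ^ (1 / 2 + ε) ≤ (Nat.card H : ℝ) →
    ∃ χ ∈ H, χ ≠ 1 ∧
      Real.exp (√ε / 1400 * √(Real.log q * Real.log (Real.log (Real.log q)) / Real.log (Real.log q))) ≤
        ‖DirichletCharacter.LFunction χ (1 / 2)‖ := by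
  rcases le_or_gt ε (1 / 2) with h12 | h12
  · obtain ⟨q₀, h⟩ := Pool.Agent.X24.Coset.extreme_subgroups' ε hε
    refine ⟨q₀, fun q hq hp _ H hH => ?_⟩
    obtain ⟨χ, hχ, hne, hle⟩ := h q hq hp H hH
    refine ⟨χ, hχ, hne, le_trans (Real.exp_le_exp.mpr ?_) hle⟩
    refine mul_le_mul_of_nonneg_right ?_ (Real.sqrt_nonneg _)
    have h1 : ε / 32 ≤ min (ε / 20) (1 / 64) := le_min (by linarith) (by linarith)
    have h2 : √ε / 1400 ≤ √(ε / 32 / 384) / 12 := by
      have h3 : (√ε / 1400) ^ 2 ≤ (√(ε / 32 / 384) / 12) ^ 2 := by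
        rw [div_pow, div_pow, Real.sq_sqrt hε.le, Real.sq_sqrt (by positivity)]
        linarith
      exact (pow_le_pow_iff_left₀ (by positivity) (by positivity) (by norm_num)).mp h3
    refine h2.trans ?_
    have h4 : √(ε / 32 / 384) ≤ √(min (ε / 20) (1 / 64) / 384) := Real.sqrt_le_sqrt (by linarith)
    linarith
  · refine ⟨0, fun q _ hp _ H hH => ?_⟩
    exfalso
    have : Fact q.Prime := ⟨hp⟩
    have h1 := Pool.Agent.X24.Coset.card_le_q H
    have h2 : (1 : ℝ) < q := by exact_mod_cast hp.one_lt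
    have h3 : (q : ℝ) ^ (1 : ℝ) < (q : ℝ) ^ (1 / 2 + ε) := Real.rpow_lt_rpow_of_exponent_lt h2 (by linarith)
    rw [Real.rpow_one] at h3
    linarith

end Pool.Agent.Results.MP_3e6494_nt.LargeSubgroups
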