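import Pool.Agent.X24.Coset.F

/-!
# Large central values on every coset of every group of characters of index at most `q ^ β`, `β < 1 / 3`

For all primes `q ≤ x` with at most `x ^ (3 β + δ)` exceptions: every coset `χ₀ H` of every group `H` of
Dirichlet characters modulo `q` with `[X : H] ≤ q ^ β` contains a character `χ` with
`|L(χ, 1/2)| ≥ exp (c √(log q / log log q))`.
-/

set_option autoImplicit false

open Finset Filter

namespace Pool.Agent.Results.MP_3e6494_nt.PowerIndexCosets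

/-- The number `q` is exceptional (for `β` and `c`): there are a group `H` of Dirichlet characters modulo `q` whose
index in the group of all characters is at most `q ^ β` and a coset `χ₀ H` with
`|L(χ, 1/2)| < exp (c √(log q / log log q))` for all `χ` in `χ₀ H`. -/
def Exceptional (β c : ℝ) (q : ℕ) : Prop :=
  ∃ _ : NeZero q, ∃ (H : Subgroup (DirichletCharacter ℂ q)) (χ₀ : DirichletCharacter ℂ q),
    (H.index : ℝ) ≤ (q : ℝ) ^ β ∧
    ∀ ψ ∈ H, ‖DirichletCharacter.LFunction (χ₀ * ψ) (1 / 2)‖ <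
      Real.exp (c * √(Real.log q / Real.log (Real.log q)))

theorem exceptional_iff (β c : ℝ) (q : ℕ) : Exceptional β c q ↔ ¬ Pool.Agent.X24.Coset.Large β c q := by
  unfold Exceptional Pool.Agent.X24.Coset.Large
  push Not
  constructor
  · rintro ⟨h, H, χ₀, h1, h2⟩
    exact ⟨h, H, h1, χ₀, h2⟩
  · rintro ⟨h, H, h1, χ₀, h2⟩
    exact ⟨h, H, χ₀, h1, h2⟩

open Classical in
/-- the number of the exceptional primes `q ≤ x` -/
noncomputable def count (β c : ℝ) (x : ℕ) : ℕ :=
  ((range (x + 1)).filter fun q => q.Prime ∧ Exceptional β c q).card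

theorem ev_final (C : ℝ) (a : ℝ) (ha : 0 < a) (W : ℝ) (hW : 0 ≤ W) :
    ∀ᶠ x : ℕ in atTop, C + ((Nat.log 2 x : ℝ) + 1) * (64 * (x : ℝ) ^ W) ≤ (x : ℝ) ^ (W + a) := by
  have h1 := (isLittleO_log_rpow_atTop ha).bound (c := 1 / 512) (by norm_num)
  have h2 := tendsto_natCast_atTop_atTop.eventually h1
  have h3 := ((tendsto_rpow_atTop ha).comp tendsto_natCast_atTop_atTop).eventually_ge_atTop (max (4 * |C|) 512)
  filter_upwards [h2, h3, eventually_ge_atTop 1] with x hx1 hx2 hx3
  have hx0 : (0 : ℝ) < x := by exact_mod_cast (by omega : 0 < x)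
  have hx1' : (1 : ℝ) ≤ x := by exact_mod_cast hx3
  simp only [Function.comp_apply] at hx2
  have hlog : 0 ≤ Real.log x := Real.log_nonneg hx1'
  have hy0 : 0 < (x : ℝ) ^ a := by positivity
  have hz1 : 1 ≤ (x : ℝ) ^ W := Real.one_le_rpow hx1' hW
  rw [Real.norm_of_nonneg hlog, Real.norm_of_nonneg hy0.le] at hx1
  have h4 : (Nat.log 2 x : ℝ) ≤ 2 * Real.log x := by
    have h5 : (Nat.log 2 x : ℝ) ≤ Real.logb 2 x := Real.natLog_le_logb x 2
    have h6 : Real.logb 2 x ≤ 2 * Real.log x := by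
      rw [Real.logb, div_le_iff₀ (Real.log_pos (by norm_num))]
      have := Real.log_two_gt_d9
      nlinarith
    exact h5.trans h6
  have h7 := (le_max_left _ _).trans hx2
  have h8 := (le_max_right _ _).trans hx2
  rw [Real.rpow_add hx0]
  set y := (x : ℝ) ^ a
  set z := (x : ℝ) ^ W
  have h9 : C ≤ y / 4 := by
    have := le_abs_self C
    linarith
  have h10 : y / 4 ≤ z * (y / 4) := by nlinarith
  have h11 : ((Nat.log 2 x : ℝ) + 1) * 64 ≤ 3 * y / 8 := by linarith
  nlinarith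

/-- Let `0 ≤ β < 1 / 3` and `δ > 0`. There is a `c > 0` such that for all large `x` at most `x ^ (3 β + δ)` primes
`q ≤ x` are exceptional: for all other primes `q ≤ x`, every coset `χ₀ H` of every group `H` of Dirichlet characters
modulo `q` of index at most `q ^ β` contains a `χ` with `|L(χ, 1/2)| ≥ exp (c √(log q / log log q))`. -/
theorem result (β δ : ℝ) (hβ : 0 ≤ β) (hβ3 : β < 1 / 3) (hδ : 0 < δ) :
    ∃ c : ℝ, 0 < c ∧ ∃ x₀ : ℕ, ∀ x : ℕ, x₀ ≤ x → (count β c x : ℝ) ≤ (x : ℝ) ^ (3 * β + δ) := by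
  classical
  set δ₁ : ℝ := min δ 1 with hδ₁
  have hδ₁0 : 0 < δ₁ := lt_min hδ one_pos
  obtain ⟨c, hc, Q₀, hQ₀, h⟩ := Pool.Agent.X24.Coset.dyadic hβ hβ3 hδ₁0 (min_le_right _ _)
  refine ⟨c, hc, ?_⟩
  obtain ⟨x₀, hx₀⟩ := eventually_atTop.mp ((ev_final (2 * Q₀ + 1) (5 * δ₁ / 8) (by positivity)
    (3 * β + 3 * δ₁ / 8) (by positivity)).and (eventually_ge_atTop 1))
  refine ⟨x₀, fun x hx => ?_⟩
  obtain ⟨h1, hx1⟩ := hx₀ x hx
  have hxr : (1 : ℝ) ≤ x := by exact_mod_cast hx1
  have hsub : ((range (x + 1)).filter fun q => q.Prime ∧ Exceptional β c q) ⊆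
      range (2 * Q₀ + 1) ∪ (range (Nat.log 2 x + 1)).biUnion (fun i =>
        if Q₀ ≤ 2 ^ i then (Pool.Agent.X24.Coset.dyad (2 ^ i)).filter
          (fun q => ¬ Pool.Agent.X24.Coset.Large β c q) else ∅) := by
    intro q hq
    rw [mem_filter, mem_range, exceptional_iff] at hq
    obtain ⟨hqx, hqp, hqe⟩ := hq
    rw [mem_union, mem_range]
    by_cases hsmall : q < 2 * Q₀ + 1
    · exact Or.inl hsmall
    · right
      push Not at hsmall
      have hq2 := hqp.two_le
      have hne : q - 1 ≠ 0 := by omega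
      have h2 : 2 ^ Nat.log 2 (q - 1) ≤ q - 1 := Nat.pow_log_le_self 2 hne
      have h3 : q - 1 < 2 ^ (Nat.log 2 (q - 1) + 1) := Nat.lt_pow_succ_log_self (by norm_num) _
      rw [mem_biUnion]
      refine ⟨Nat.log 2 (q - 1), ?_, ?_⟩
      · rw [mem_range]
        have := Nat.log_mono_right (b := 2) (show q - 1 ≤ x by omega)
        omega
      · rw [pow_succ] at h3
        rw [if_pos (by omega), mem_filter]
        refine ⟨?_, hqe⟩
        unfold Pool.Agent.X24.Coset.dyad
        rw [mem_filter, mem_Ioc]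
        exact ⟨⟨by omega, by omega⟩, hqp⟩
  have hcard : (count β c x : ℝ) ≤ (2 * Q₀ + 1) + ((Nat.log 2 x : ℝ) + 1) * (64 * (x : ℝ) ^ (3 * β + 3 * δ₁ / 8)) := by
    have h2 : (count β c x : ℝ) ≤ ((2 * Q₀ + 1 : ℕ) : ℝ) + ∑ i ∈ range (Nat.log 2 x + 1),
        (((if Q₀ ≤ 2 ^ i then (Pool.Agent.X24.Coset.dyad (2 ^ i)).filter
          (fun q => ¬ Pool.Agent.X24.Coset.Large β c q) else ∅) : Finset ℕ).card : ℝ) := by
      have h3 := (card_le_card hsub).trans ((card_union_le _ _).trans (Nat.add_le_add_left card_biUnion_le _))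
      rw [card_range] at h3
      unfold count
      exact_mod_cast h3
    refine h2.trans ?_
    have h4 : ∑ i ∈ range (Nat.log 2 x + 1),
        (((if Q₀ ≤ 2 ^ i then (Pool.Agent.X24.Coset.dyad (2 ^ i)).filter
          (fun q => ¬ Pool.Agent.X24.Coset.Large β c q) else ∅) : Finset ℕ).card : ℝ) ≤
        ∑ i ∈ range (Nat.log 2 x + 1), (64 * (x : ℝ) ^ (3 * β + 3 * δ₁ / 8)) := by
      refine sum_le_sum fun i hi => ?_
      rw [mem_range] at hi
      split_ifs with hQ
      · refine (h (2 ^ i) hQ).trans ?_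
        have h5 : ((2 ^ i : ℕ) : ℝ) ≤ x := by
          have : 2 ^ i ≤ x := (Nat.pow_le_pow_right (by norm_num) (by omega)).trans
            (Nat.pow_log_le_self 2 (by omega : x ≠ 0))
          exact_mod_cast this
        have h6 : ((2 ^ i : ℕ) : ℝ) ^ (3 * β + 3 * δ₁ / 8) ≤ (x : ℝ) ^ (3 * β + 3 * δ₁ / 8) :=
          Real.rpow_le_rpow (Nat.cast_nonneg _) h5 (by positivity)
        linarith
      · rw [card_empty, Nat.cast_zero]
        positivity
    rw [sum_const, card_range, nsmul_eq_mul] at h4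
    push_cast at h4 ⊢
    linarith
  refine hcard.trans (h1.trans ?_)
  refine Real.rpow_le_rpow_of_exponent_le hxr ?_
  have : δ₁ ≤ δ := min_le_left _ _
  linarith

end Pool.Agent.Results.MP_3e6494_nt.PowerIndexCosets
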