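import Pool.Agent.Results.MP_3e6494_nt.PowerIndexCosets
import Pool.Agent.X283.DA.Pack

/-!
# Large central values on every coset for ALL primes near real powers and in generic Bohr sets

Let `0 ≤ β < 1 / 3` and `3 β < s`. There is `c > 0` such that the property that every coset `χ₀ H` of every
group `H` of Dirichlet characters modulo `q` with `[X : H] ≤ q ^ β` contains a character `χ` with
`|L(χ, 1/2)| ≥ exp (c √(log q / log log q))` holds without exception for all large primes `q`

* with `|q - t ^ κ_n| ≤ t ^ (θ κ_n)`, for almost all `t > 1` if `s + θ < 1`, and for all `t > 1`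
  outside a set of dimension `s / (1 - θ)`; here `κ_n / log n` tends to infinity;
* with `|q - n ^ t| ≤ n ^ (θ t)`, for almost all `t > 1 / (1 - s - θ)`;
* with `‖q x_i - y_i‖ ≤ q ^ (-θ_i)`, `i = 1, …, d`, for almost all `x` in `ℝ ^ d` if
  `θ_1 + … + θ_d > s`, and for `d = 1` for all `x` outside a set of dimension `(1 + s) / (1 + θ)`.

The exceptional primes are counted in `PowerIndexCosets`.
-/

set_option autoImplicit false

open Finset Filter
open Pool.Agent.X283.DA

namespace Pool.Agent.Results.MP_3e6494_nt.PrimesNearPowers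

/-- If `q` is a prime number, then every coset `χ₀ H` of every group `H` of Dirichlet characters modulo
`q`, whose index in the group of all characters is at most `q ^ β`, contains a character `χ` with
`|L(χ, 1/2)| ≥ exp (c √(log q / log log q))`. -/
def Good (β c : ℝ) (q : ℕ) : Prop :=
  q.Prime → ∀ (_ : NeZero q) (H : Subgroup (DirichletCharacter ℂ q)) (χ₀ : DirichletCharacter ℂ q),
    (H.index : ℝ) ≤ (q : ℝ) ^ β →
      ∃ ψ ∈ H, Real.exp (c * √(Real.log q / Real.log (Real.log q))) ≤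
        ‖DirichletCharacter.LFunction (χ₀ * ψ) (1 / 2)‖

theorem not_good {β c : ℝ} {q : ℕ} (h : ¬ Good β c q) :
    q.Prime ∧ PowerIndexCosets.Exceptional β c q := by
  unfold Good at h
  push Not at h
  obtain ⟨h1, h2, H, χ₀, h3, h4⟩ := h
  exact ⟨h1, h2, H, χ₀, h3, h4⟩

theorem sparse (β s : ℝ) (hβ : 0 ≤ β) (hβ3 : β < 1 / 3) (hs : 3 * β < s) :
    ∃ c : ℝ, 0 < c ∧ Sparse {q : ℕ | ¬ Good β c q} s := by
  classical
  obtain ⟨c, hc, x₀, h⟩ := PowerIndexCosets.result β (s - 3 * β) hβ hβ3 (by linarith)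
  refine ⟨c, hc, sparse_of_nat (by linarith) fun ε hε => ⟨(x₀ : ℝ) + 1, fun X hX => ?_⟩⟩
  have hX1 : (1 : ℝ) ≤ X := by exact_mod_cast hX
  have hpow : (X : ℝ) ^ s ≤ (X : ℝ) ^ (s + ε) := Real.rpow_le_rpow_of_exponent_le hX1 (by linarith)
  have hone : (1 : ℝ) ≤ (X : ℝ) ^ (s + ε) := Real.one_le_rpow hX1 (by linarith)
  have hx0 : (0 : ℝ) ≤ x₀ := Nat.cast_nonneg _
  by_cases hXx : x₀ ≤ X
  · have hsub : {t : ℕ | t ∈ {q : ℕ | ¬ Good β c q} ∧ t ≤ X} ⊆
        (((range (X + 1)).filter fun q => q.Prime ∧ PowerIndexCosets.Exceptional β c q :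
          Finset ℕ) : Set ℕ) := by
      rintro t ⟨h1, h2⟩
      rw [mem_coe, mem_filter, mem_range]
      exact ⟨by omega, not_good h1⟩
    have h1 := Set.ncard_le_ncard hsub (Finset.finite_toSet _)
    rw [Set.ncard_coe_finset] at h1
    have h2 : (({t : ℕ | t ∈ {q : ℕ | ¬ Good β c q} ∧ t ≤ X}.ncard : ℕ) : ℝ) ≤
        (PowerIndexCosets.count β c X : ℝ) := by
      refine (Nat.cast_le.2 h1).trans (le_of_eq ?_)
      unfold PowerIndexCosets.count
      congr!
    have h3 := h X hXx
    have e : 3 * β + (s - 3 * β) = s := by ring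
    rw [e] at h3
    have h4 : (X : ℝ) ^ (s + ε) ≤ ((x₀ : ℝ) + 1) * (X : ℝ) ^ (s + ε) :=
      le_mul_of_one_le_left (by linarith) (by linarith)
    exact h2.trans (h3.trans (hpow.trans h4))
  · push Not at hXx
    have hsub : {t : ℕ | t ∈ {q : ℕ | ¬ Good β c q} ∧ t ≤ X} ⊆ ((range x₀ : Finset ℕ) : Set ℕ) := by
      rintro t ⟨-, h2⟩
      rw [mem_coe, mem_range]
      omega
    have h1 := Set.ncard_le_ncard hsub (Finset.finite_toSet _)
    rw [Set.ncard_coe_finset, card_range] at h1
    have h2 : (({t : ℕ | t ∈ {q : ℕ | ¬ Good β c q} ∧ t ≤ X}.ncard : ℕ) : ℝ) ≤ (x₀ : ℝ) :=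
      Nat.cast_le.2 h1
    nlinarith

/-- **Theorem.** Let `0 ≤ β < 1 / 3` and `3 β < s`. There is `c > 0` such that `Good β c` holds near the
real powers `t ^ κ_n` and `n ^ t` (in the sense of `GoodAtPowers` and `GoodAtExponents`) and for the
denominators of good simultaneous inhomogeneous rational approximations (`GoodAtDenominators`,
`GoodAtApproximations`), with the exponent `s`. -/
theorem result (β s : ℝ) (hβ : 0 ≤ β) (hβ3 : β < 1 / 3) (hs : 3 * β < s) :
    ∃ c : ℝ, 0 < c ∧ GoodAtPowers (Good β c) s ∧ GoodAtExponents (Good β c) s ∧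
      GoodAtDenominators (Good β c) s ∧ GoodAtApproximations (Good β c) s := by
  obtain ⟨c, hc, h⟩ := sparse β s hβ hβ3 hs
  exact ⟨c, hc, pack (Good β c) (by linarith) h⟩

end Pool.Agent.Results.MP_3e6494_nt.PrimesNearPowers
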