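import Pool.Agent.X108.CH.Fin

/-!
# Extreme central values at the quotients of every large set of characters

Let `ε > 0`, let `q` be a large prime and `V = exp ((√ε / 2000) √(log q logloglog q / loglog q))`. Every set `S` of at least
`q ^ (1/2 + ε)` Dirichlet characters modulo `q` has at least `|S| ^ 2 q ^ (-1/2 - ε)` ordered pairs `(χ, χ')` of distinct
elements with `|L(χ χ'⁻¹, 1/2)| ≥ V`. In particular every group `H` of at least `q ^ (1/2 + ε)` characters has at least
`#H q ^ (-1/2 - ε)` elements `χ ≠ 1` with `|L(χ, 1/2)| ≥ V`, and for every character `ψ` of order at least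
`J ≥ q ^ (1/2 + ε)` there are at least `J q ^ (-1/2 - ε)` exponents `1 ≤ h < J` with `|L(ψ ^ h, 1/2)| ≥ V`.

Idea of the proof. For every set `S` of characters the sum of `χ(n) χ'(n)⁻¹` over all pairs is `|∑ χ(n)| ^ 2 ≥ 0`; hence the proof
of helper24 for the groups `H` (positive cone of functions on the group of characters, files `Pool.Agent.X24.Coset`) works
with the sum over all quotients of the elements of `S` in place of the sum over `H`. The number of the pairs is obtained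
from the existence of one pair in every subset of at least `q ^ (1/2 + ε/2)` elements by an argument on graphs without large
independent sets.
-/

set_option autoImplicit false

namespace Pool.Agent.Results.MP_3e6494_nt.QuotientsOfLargeSets

/-- For `ε > 0` and every large prime `q`, with `V = exp ((√ε / 2000) √(log q logloglog q / loglog q))`: (1) every set `S` of at
least `q ^ (1/2 + ε)` characters modulo `q` has at least `|S| ^ 2 q ^ (-1/2 - ε)` ordered pairs of distinct elements `χ`, `χ'`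
with `|L(χ χ'⁻¹, 1/2)| ≥ V`; (2) every group `H` of at least `q ^ (1/2 + ε)` characters has at least `#H q ^ (-1/2 - ε)`
elements `χ ≠ 1` with `|L(χ, 1/2)| ≥ V`; (3) if `ψ` is a character of order `≥ J` and `J ≥ q ^ (1/2 + ε)`, then
`|L(ψ ^ h, 1/2)| ≥ V` for at least `J q ^ (-1/2 - ε)` integers `1 ≤ h < J`. -/
theorem result (ε : ℝ) (hε : 0 < ε) : ∃ q₀ : ℕ, ∀ q : ℕ, q₀ ≤ q → q.Prime → ∀ [NeZero q],
    (∀ S : Finset (DirichletCharacter ℂ q), (q : ℝ) ^ (1 / 2 + ε) ≤ (S.card : ℝ) →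
      (S.card : ℝ) ^ 2 * (q : ℝ) ^ (-(1 / 2) - ε) ≤
        (({p : DirichletCharacter ℂ q × DirichletCharacter ℂ q | p.1 ∈ S ∧ p.2 ∈ S ∧ p.1 ≠ p.2 ∧
          Real.exp (√ε / 2000 * √(Real.log q * Real.log (Real.log (Real.log q)) / Real.log (Real.log q))) ≤
            ‖DirichletCharacter.LFunction (p.1 * p.2⁻¹) (1 / 2)‖}).ncard : ℝ)) ∧
    (∀ H : Subgroup (DirichletCharacter ℂ q), (q : ℝ) ^ (1 / 2 + ε) ≤ (Nat.card H : ℝ) →
      (Nat.card H : ℝ) * (q : ℝ) ^ (-(1 / 2) - ε) ≤
        (({χ : DirichletCharacter ℂ q | χ ∈ H ∧ χ ≠ 1 ∧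
          Real.exp (√ε / 2000 * √(Real.log q * Real.log (Real.log (Real.log q)) / Real.log (Real.log q))) ≤
            ‖DirichletCharacter.LFunction χ (1 / 2)‖}).ncard : ℝ)) ∧
    (∀ (ψ : DirichletCharacter ℂ q) (J : ℕ), J ≤ orderOf ψ → (q : ℝ) ^ (1 / 2 + ε) ≤ (J : ℝ) →
      (J : ℝ) * (q : ℝ) ^ (-(1 / 2) - ε) ≤
        (({h : ℕ | 1 ≤ h ∧ h < J ∧
          Real.exp (√ε / 2000 * √(Real.log q * Real.log (Real.log (Real.log q)) / Real.log (Real.log q))) ≤
            ‖DirichletCharacter.LFunction (ψ ^ h) (1 / 2)‖}).ncard : ℝ)) := by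
  obtain ⟨q₁, h1⟩ := Pool.Agent.X108.CH.count ε hε
  obtain ⟨q₂, h2⟩ := Pool.Agent.X108.CH.group_count ε hε
  obtain ⟨q₃, h3⟩ := Pool.Agent.X108.CH.power_count ε hε
  refine ⟨max q₁ (max q₂ q₃), fun q hq hp _ => ⟨?_, ?_, ?_⟩⟩
  · intro S hS
    have h := h1 q ((le_max_left _ _).trans hq) hp S hS
    have e : {p : DirichletCharacter ℂ q × DirichletCharacter ℂ q | p.1 ∈ S ∧ p.2 ∈ S ∧ p.1 ≠ p.2 ∧
          Real.exp (√ε / 2000 * √(Real.log q * Real.log (Real.log (Real.log q)) / Real.log (Real.log q))) ≤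
            ‖DirichletCharacter.LFunction (p.1 * p.2⁻¹) (1 / 2)‖} =
        (Pool.Agent.X108.CH.PR S (Pool.Agent.X108.CH.EE (Pool.Agent.X108.CH.VV ε q)) :
          Set (DirichletCharacter ℂ q × DirichletCharacter ℂ q)) := by
      ext p
      rw [Finset.mem_coe, Pool.Agent.X108.CH.mem_PR]
      constructor
      · rintro ⟨a, b, c, d⟩
        exact ⟨⟨a, b⟩, c, c, d⟩
      · rintro ⟨⟨a, b⟩, c, -, d⟩
        exact ⟨a, b, c, d⟩
    rw [e, Set.ncard_coe_finset]
    refine le_trans ?_ h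
    have : 0 ≤ (S.card : ℝ) ^ 2 * (q : ℝ) ^ (-(1 / 2) - ε) := by positivity
    linarith
  · exact fun H hH => h2 q (((le_max_left _ _).trans (le_max_right _ _)).trans hq) hp H hH
  · intro ψ J hJ hJq
    have h := h3 q (((le_max_right _ _).trans (le_max_right _ _)).trans hq) hp ψ J hJ hJq
    refine h.trans (le_of_eq ?_)
    rw [← Set.ncard_coe_finset]
    congr 2
    ext h
    rw [Finset.mem_coe, Finset.mem_filter, Finset.mem_Icc]
    constructor
    · rintro ⟨⟨a, b⟩, c⟩
      exact ⟨a, by omega, c⟩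
    · rintro ⟨a, b, c⟩
      exact ⟨⟨a, by omega⟩, c⟩

end Pool.Agent.Results.MP_3e6494_nt.QuotientsOfLargeSets
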